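import Pool.Agent.helper37.NE.SpecB
import Pool.Agent.helper95.NA.NOB

/-! Row ne:YCV of MP_baa4d7_al. -/

set_option autoImplicit false

namespace Pool.Agent.NE

open Pool.Agent.helper58.DC Pool.Agent.DI Pool.Agent.GR Pool.Agent.OB Pool.Agent.DR Pool.Agent.FI Pool.Agent.FI3 Pool.Agent.FI4 Pool.Agent.FI4I Pool.Agent.LE Pool.Agent.L5 Pool.Agent.NAB Pool.Agent.ND

/-- the conjugates -/
def YCV_S {G : Type} [Group G] (L : Subgroup G) (ψ : G → ℂ) : Set (G → ℂ) :=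
  {ψ' | ∃ n ∈ L, ψ' = funMap (MulAut.conj n) ψ}

theorem YCV_sub {G : Type} [Group G] [Finite G] {K L : Subgroup G} (hL : L ≤ nz K) {ψ : G → ℂ}
    (hψ : ψ ∈ IrrOn K) : YCV_S L ψ ⊆ IrrOn K := by
  rintro _ ⟨n, hn, rfl⟩
  exact NOB_irr (hL hn) hψ

theorem YCV_fin (hB2 : B2_stmt) {G : Type} [Group G] [Finite G] {K L : Subgroup G} (hL : L ≤ nz K)
    {ψ : G → ℂ} (hψ : ψ ∈ IrrOn K) : (YCV_S L ψ).Finite :=
  (hB2 G K).1.subset (YCV_sub hL hψ)

/-- the value of `φ` at every point of `K` as a finite sum -/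
theorem YCV_val {G : Type} [Group G] {K L : Subgroup G} {φ ψ : G → ℂ} {e : ℕ} (hO : OverE K L φ ψ e)
    (hf : (YCV_S L ψ).Finite) {x : G} (hx : x ∈ K) : φ x = e * ∑ θ ∈ hf.toFinset, θ x := by
  have h1 := hO x hx
  rw [h1]
  congr 1
  exact finsum_mem_eq_finite_toFinset_sum _ hf

theorem YCV_sumconj {G : Type} [Group G] [Fintype G] {L : Subgroup G} {f ψ : G → ℂ}
    (hf : ∀ l ∈ L, ∀ x, f (l * x * l⁻¹) = f x) {n : G} (hn : n ∈ L) :
    ∑ x, f x * funMap (MulAut.conj n) ψ x = ∑ x, f x * ψ x := by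
  have h := Fintype.sum_equiv (MulAut.conj n).toEquiv (fun x => f x * ψ x)
    (fun x => f x * funMap (MulAut.conj n) ψ x) ?_
  · exact h.symm
  · intro x
    show f x * ψ x = f (n * x * n⁻¹) * funMap (MulAut.conj n) ψ (n * x * n⁻¹)
    rw [hf n hn, funMap_apply]
    have e1 : n⁻¹ * (n * x * n⁻¹) * n = x := by group
    rw [e1]

/-- the key lemma: central values of invariant functions supported on `K` -/
theorem YCV_cc (hB2 : B2_stmt) {G : Type} [Group G] [Finite G] {K L : Subgroup G} (hKL : K ≤ L)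
    (hL : L ≤ nz K) {φ ψ : G → ℂ} (hφ : φ ∈ IrrOn L) (hψ : ψ ∈ IrrOn K) {e : ℕ} (he : 0 < e)
    (hO : OverE K L φ ψ e) {f : G → ℂ} (hf : ∀ l ∈ L, ∀ x, f (l * x * l⁻¹) = f x)
    (hf0 : ∀ x ∈ L, x ∉ K → f x = 0) : cc φ f = cc ψ f := by
  classical
  have : Fintype G := Fintype.ofFinite G
  have hfin := YCV_fin hB2 hL hψ
  obtain ⟨-, hψ2⟩ := (hB2 G K)
  obtain ⟨⟨a, ha, hψ1, -⟩, -, -, -, -⟩ := hψ2 ψ hψ
  have hψ10 : ψ 1 ≠ 0 := by rw [hψ1]; exact_mod_cast ha.ne'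
  have hne : (hfin.toFinset).Nonempty := by
    refine ⟨ψ, ?_⟩
    rw [Set.Finite.mem_toFinset]
    exact ⟨1, L.one_mem, (funMap_one' ψ).symm⟩
  have hcard : ((hfin.toFinset).card : ℂ) ≠ 0 := by
    exact_mod_cast (Finset.card_pos.mpr hne).ne'
  have he0 : (e : ℂ) ≠ 0 := by exact_mod_cast he.ne'
  have hφ1 : φ 1 = e * ((hfin.toFinset).card * ψ 1) := by
    rw [YCV_val hO hfin K.one_mem]
    congr 1
    rw [← nsmul_eq_mul]
    refine Finset.sum_eq_card_nsmul ?_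
    intro θ hθ
    rw [Set.Finite.mem_toFinset] at hθ
    obtain ⟨n, -, rfl⟩ := hθ
    rw [funMap_apply]
    have e1 : n⁻¹ * 1 * n = 1 := by group
    rw [e1]
  have hsum : ∑ x, f x * φ x = e * ((hfin.toFinset).card * ∑ x, f x * ψ x) := by
    have h1 : ∀ x, f x * φ x = e * ∑ θ ∈ hfin.toFinset, f x * θ x := by
      intro x
      by_cases hx : x ∈ K
      · rw [YCV_val hO hfin hx, Finset.mul_sum, Finset.mul_sum, Finset.mul_sum]
        refine Finset.sum_congr rfl fun θ _ => ?_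
        ring
      · have h2 : ∑ θ ∈ hfin.toFinset, f x * θ x = 0 := by
          refine Finset.sum_eq_zero fun θ hθ => ?_
          rw [Set.Finite.mem_toFinset] at hθ
          rw [(YCV_sub hL hψ hθ).1 x hx, mul_zero]
        rw [h2, mul_zero]
        by_cases hxL : x ∈ L
        · rw [hf0 x hxL hx, zero_mul]
        · rw [hφ.1 x hxL, mul_zero]
    rw [Finset.sum_congr rfl (fun x _ => h1 x), ← Finset.mul_sum, Finset.sum_comm]
    congr 1
    rw [← nsmul_eq_mul]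
    refine Finset.sum_eq_card_nsmul ?_
    intro θ hθ
    rw [Set.Finite.mem_toFinset] at hθ
    obtain ⟨n, hn, rfl⟩ := hθ
    exact YCV_sumconj hf hn
  unfold cc
  rw [finsum_eq_sum_of_fintype, finsum_eq_sum_of_fintype, hsum, hφ1]
  field_simp

/-- multiplicities -/
theorem YCV_mt (hB2 : B2_stmt) {G : Type} [Group G] [Finite G] {K L : Subgroup G}
    (hL : L ≤ nz K) {φ ψ : G → ℂ} (hψ : ψ ∈ IrrOn K) {e : ℕ}
    (hO : OverE K L φ ψ e) {η : G → ℂ} (hη : η ∈ IrrOn K) :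
    (η ∈ YCV_S L ψ → mt K φ η = e) ∧ (η ∉ YCV_S L ψ → mt K φ η = 0) := by
  classical
  have : Fintype G := Fintype.ofFinite G
  have hfin := YCV_fin hB2 hL hψ
  have hK0 : ((Nat.card K : ℕ) : ℂ) ≠ 0 := by exact_mod_cast Nat.card_pos.ne'
  have key : mt K φ η = e * ∑ θ ∈ hfin.toFinset, (if θ = η then (1 : ℂ) else 0) := by
    unfold Pool.Agent.FI.mt
    have h1 : (∑ᶠ (x : G) (_ : x ∈ (K : Set G)), φ x * η x⁻¹) =
        ∑ x, e * ∑ θ ∈ hfin.toFinset, θ x * η x⁻¹ := by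
      rw [← finsum_eq_sum_of_fintype]
      refine finsum_congr fun x => ?_
      by_cases hx : x ∈ K
      · rw [finsum_eq_if, if_pos (show x ∈ (K : Set G) from hx), YCV_val hO hfin hx, Finset.mul_sum,
          Finset.mul_sum, Finset.sum_mul]
        refine Finset.sum_congr rfl fun θ _ => ?_
        ring
      · rw [finsum_eq_if, if_neg (show ¬ x ∈ (K : Set G) from hx)]
        rw [Finset.sum_eq_zero, mul_zero]
        intro θ hθ
        rw [Set.Finite.mem_toFinset] at hθ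
        rw [(YCV_sub hL hψ hθ).1 x hx, zero_mul]
    rw [h1, ← Finset.mul_sum, Finset.sum_comm, mul_div_assoc]
    congr 1
    rw [Finset.sum_div]
    refine Finset.sum_congr rfl fun θ hθ => ?_
    rw [Set.Finite.mem_toFinset] at hθ
    have h2 := ((hB2 G K).2 θ (YCV_sub hL hψ hθ)).2.2.2.2 η hη
    rw [finsum_eq_sum_of_fintype] at h2
    rw [h2]
    split_ifs with h
    · exact div_self hK0
    · exact zero_div _
  constructor
  · intro h
    rw [key, Finset.sum_ite_eq' hfin.toFinset η, if_pos (by rw [Set.Finite.mem_toFinset]; exact h), mul_one]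
  · intro h
    rw [key, Finset.sum_ite_eq' hfin.toFinset η, if_neg (by rw [Set.Finite.mem_toFinset]; exact h), mul_zero]

/-- the version of the key lemma with `mt` -/
theorem YCV_ccm (hB2 : B2_stmt) (hCFA : CFA_stmt) {G : Type} [Group G] [Finite G] {K L : Subgroup G}
    (hKL : K ≤ L) (hL : L ≤ nz K) {φ ψ : G → ℂ} (hφ : φ ∈ IrrOn L) (hψ : ψ ∈ IrrOn K)
    (hm : mt K φ ψ ≠ 0) {f : G → ℂ} (hf : ∀ l ∈ L, ∀ x, f (l * x * l⁻¹) = f x)
    (hf0 : ∀ x ∈ L, x ∉ K → f x = 0) : cc φ f = cc ψ f := by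
  classical
  have : Fintype G := Fintype.ofFinite G
  obtain ⟨ψ₀, hψ₀, e, he, hO⟩ := (hCFA G K L hKL hL).1 φ hφ
  have hS : ψ ∈ YCV_S L ψ₀ := by
    by_contra hn
    exact hm ((YCV_mt hB2 hL hψ₀ hO hψ).2 hn)
  obtain ⟨n, hn, rfl⟩ := hS
  rw [YCV_cc hB2 hKL hL hφ hψ₀ he hO hf hf0]
  unfold cc
  rw [finsum_eq_sum_of_fintype, finsum_eq_sum_of_fintype, YCV_sumconj hf hn, funMap_apply]
  have e1 : n⁻¹ * 1 * n = 1 := by group
  rw [e1]

theorem YCV (hCFA : CFA_stmt) (hEIN : EIN_stmt) (hIDM : IDM_stmt) (hSBI : SBI_stmt) (hB2 : B2_stmt) :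
    YCV_stmt := by
  intro p M hS G _ _ N N' C' hNN' hN' hC' θ' hθ' θ hθ hmt χ hχ χ' hχ' hSB hSB'
  obtain ⟨hCF, hcc, _⟩ := hIDM G N (NOB_T M N N' χ) (fun φ hφ => hφ.1)
  have hBC : BC M N (NOB_T M N N' χ) := by
    refine ⟨fun φ hφ => hφ.1, ?_⟩
    intro φ hφ φ' hφ' h
    obtain ⟨_, h1, hh1, h2⟩ := hφ
    refine ⟨hφ', h1, hh1, ?_⟩
    have h3 : SB M N φ φ' := h
    exact h3.symm.trans h2
  have hInt := hEIN p M hS G N (NOB_T M N N' χ) hBC
  have hCFH : CF N' (eS N (NOB_T M N N' χ)) := by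
    refine ⟨fun h hh x => NOB_inv hN' χ hh x, fun x hx => ?_⟩
    exact hCF.2 x fun h => hx (hNN' h)
  have hχT : χ ∈ NOB_T M N N' χ := by
    refine ⟨hχ, 1, N'.one_mem, ?_⟩
    have h1 : cjF 1 χ = χ := funMap_one' χ
    rw [h1]
    exact SB.refl _ _
  -- (a)
  have h1 := (hSBI p M hS G N θ χ hSB).1 _ hCF hInt
  rw [hcc χ hχ, if_pos hχT] at h1
  -- (b)
  have hC'C : C' ≤ nz (C' ⊓ N) := by
    intro g hg
    have hgN : g ∈ nz N := hN' (hC' hg)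
    rw [Subgroup.mem_normalizer_iff] at hgN ⊢
    intro x
    show x ∈ C' ⊓ N ↔ g * x * g⁻¹ ∈ C' ⊓ N
    rw [Subgroup.mem_inf, Subgroup.mem_inf]
    have h2 : x ∈ C' ↔ g * x * g⁻¹ ∈ C' := by
      constructor
      · intro hx
        exact C'.mul_mem (C'.mul_mem hg hx) (C'.inv_mem hg)
      · intro hx
        have h3 := C'.mul_mem (C'.mul_mem (C'.inv_mem hg) hx) hg
        have e1 : g⁻¹ * (g * x * g⁻¹) * g = x := by group
        rwa [e1] at h3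
    have h3 : x ∈ N ↔ g * x * g⁻¹ ∈ N := hgN x
    rw [h2, h3]
  have hb : cc θ' (eS N (NOB_T M N N' χ)) = cc θ (eS N (NOB_T M N N' χ)) := by
    refine YCV_ccm hB2 hCFA inf_le_left hC'C hθ' hθ hmt (fun l hl x => hCFH.1 l (hC' hl) x) ?_
    intro x hx hxn
    refine hCF.2 x fun h => hxn ?_
    exact Subgroup.mem_inf.mpr ⟨hx, h⟩
  -- (c)
  have h2 := (hSBI p M hS G N' θ' χ' hSB').1 _ hCFH hInt
  rw [hb] at h2
  have h3 := h1.sub hS h2
  -- (d)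
  obtain ⟨χ₀, hχ₀, e, he, hO⟩ := (hCFA G N N' hNN' hN').1 χ' hχ'
  have hd : cc χ' (eS N (NOB_T M N N' χ)) = cc χ₀ (eS N (NOB_T M N N' χ)) :=
    YCV_cc hB2 hNN' hN' hχ' hχ₀ he hO (fun l hl x => hCFH.1 l hl x) (fun x _ hx => hCF.2 x hx)
  have hχ₀T : χ₀ ∈ NOB_T M N N' χ := by
    by_contra hn
    rw [hd, hcc χ₀ hχ₀, if_neg hn] at h3
    have e1 : cc θ (eS N (NOB_T M N N' χ)) - 1 - (cc θ (eS N (NOB_T M N N' χ)) - 0) = -1 := by ring
    rw [e1] at h3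
    have h4 := h3.neg
    rw [neg_neg] at h4
    exact InM.not_one hS h4
  obtain ⟨_, g, hg, h5⟩ := hχ₀T
  have hg' : g⁻¹ ∈ nz N := hN' (N'.inv_mem hg)
  refine ⟨cjF g⁻¹ χ₀, NOB_irr hg' hχ₀, ?_, ?_⟩
  · have h6 := (YCV_mt hB2 hN' hχ₀ hO (NOB_irr hg' hχ₀)).1 ⟨g⁻¹, N'.inv_mem hg, rfl⟩
    rw [h6]
    exact_mod_cast he.ne'
  · have h6 := NOB_SB hg' h5
    rwa [NOB_cjF'] at h6

end Pool.Agent.NE
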